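import Pool.Agent.MP_cd4638_co.H97.Poly
import Pool.Agent.MP_cd4638_co.H97.Pent

open Pool.Agent.MP_cd4638_co.H97

/-- The regular pentagon of width one does not minimise the largest inradius of an inscribed
triangle among compact convex sets of width one. -/
theorem Pool.Agent.Results.MP_cd4638_co.Disproof.result :
    width pentagon = 1 ∧ 0.244 ≤ triRad pentagon ∧
    (∃ F : Set (EuclideanSpace ℝ (Fin 2)), IsCompact F ∧ Convex ℝ F ∧ width F = 1 ∧
      triRad F ≤ 0.24391 ∧ triRad F < triRad pentagon) ∧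
    sInf {t | ∃ F : Set (EuclideanSpace ℝ (Fin 2)), IsCompact F ∧ Convex ℝ F ∧ width F = 1 ∧
      t = triRad F} < triRad pentagon := by
  have h1 := triRad_pentagon
  have h2 := triRad_poly
  refine ⟨width_pentagon, h1, ⟨poly, isCompact_poly, convex_poly, width_poly, h2, by linarith⟩, ?_⟩
  refine lt_of_le_of_lt (csInf_le ⟨0, ?_⟩
    ⟨poly, isCompact_poly, convex_poly, width_poly, rfl⟩) (by linarith)
  rintro _ ⟨F, -, -, -, rfl⟩
  apply Real.sSup_nonneg
  rintro _ ⟨A, B, C, -, -, rfl⟩
  exact Real.sSup_nonneg fun r hr => hr.1
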